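import Mathlib

/-! # The smallest `k` for the `k`-power domination bound in claw-free regular graphs is `⌊r/2⌋` -/

set_option autoImplicit false
set_option linter.unusedSectionVars false
set_option linter.unusedVariables false

namespace Pool.Agent.Results.MP_19e396_co.KMin

noncomputable section

open scoped Classical

/-- A claw-free graph: no induced subgraph is isomorphic to `K_{1,3}`. -/
def ClawFree {V : Type} (G : SimpleGraph V) : Prop :=
  IsEmpty (completeBipartiteGraph (Fin 1) (Fin 3) ↪g G)

/-- The closed neighbourhood `N[S]` of a vertex set. -/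
def closedNbhd {V : Type} (G : SimpleGraph V) (S : Set V) : Set V :=
  {v | v ∈ S ∨ ∃ s ∈ S, G.Adj s v}

/-- One round of the propagation rule: every vertex `v` of `M` with at most `k` neighbours
outside `M` adds all its neighbours. -/
def propagate {V : Type} (G : SimpleGraph V) (k : ℕ) (M : Set V) : Set V :=
  {w | w ∈ M ∨ ∃ v ∈ M, (G.neighborSet v \ M).ncard ≤ k ∧ G.Adj v w}

/-- The set `M(S)` of vertices monitored by `S`: start from `N[S]` and propagate as long as
possible. -/
def monitored {V : Type} (G : SimpleGraph V) (k : ℕ) (S : Set V) : Set V :=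
  ⋃ i : ℕ, (propagate G k)^[i] (closedNbhd G S)

/-- The `k`-power domination number: the least size of a set which monitors all vertices. -/
def powerDominationNumber {V : Type} (G : SimpleGraph V) (k : ℕ) : ℕ :=
  sInf {m : ℕ | ∃ S : Set V, S.ncard = m ∧ monitored G k S = Set.univ}

/-! ## Basic facts on the monitored set -/

section Basic

variable {V : Type} [Fintype V] {G : SimpleGraph V} {k : ℕ}

/-- Closed under the propagation rule. -/
def Closed (G : SimpleGraph V) (k : ℕ) (M : Set V) : Prop :=
  ∀ v ∈ M, (G.neighborSet v \ M).ncard ≤ k → ∀ w, G.Adj v w → w ∈ M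

theorem closedNbhd_subset_monitored (S : Set V) : closedNbhd G S ⊆ monitored G k S :=
  fun _ h => Set.mem_iUnion.2 ⟨0, h⟩

theorem propagate_subset {P M : Set V} (hP : P ⊆ M) (hM : Closed G k M) :
    propagate G k P ⊆ M := by
  rintro w (h | ⟨v, hv, hk, hw⟩)
  · exact hP h
  · refine hM v (hP hv) (le_trans ?_ hk) w hw
    exact Set.ncard_le_ncard (Set.sdiff_subset_sdiff_right hP) (Set.toFinite _)

theorem monitored_subset {S M : Set V} (hS : closedNbhd G S ⊆ M) (hM : Closed G k M) :
    monitored G k S ⊆ M := by
  have key : ∀ i : ℕ, (propagate G k)^[i] (closedNbhd G S) ⊆ M := by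
    intro i
    induction i with
    | zero => exact hS
    | succ i ih =>
      rw [Function.iterate_succ_apply']
      exact propagate_subset ih hM
  intro v hv
  obtain ⟨i, hi⟩ := Set.mem_iUnion.1 hv
  exact key i hi

theorem iterate_mono (S : Set V) :
    Monotone (fun i : ℕ => (propagate G k)^[i] (closedNbhd G S)) := by
  refine monotone_nat_of_le_succ (fun i => ?_)
  simp only [Function.iterate_succ_apply']
  exact fun _ h => Or.inl h

theorem exists_stage (S : Set V) :
    ∃ i : ℕ, monitored G k S = (propagate G k)^[i] (closedNbhd G S) := by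
  obtain ⟨n, hn⟩ := WellFoundedGT.monotone_chain_condition
    (⟨fun i : ℕ => (propagate G k)^[i] (closedNbhd G S), iterate_mono S⟩ : ℕ →o Set V)
  refine ⟨n, Set.Subset.antisymm ?_ (fun v hv => Set.mem_iUnion.2 ⟨n, hv⟩)⟩
  intro v hv
  obtain ⟨i, hi⟩ := Set.mem_iUnion.1 hv
  rcases le_total n i with h | h
  · have := hn i h
    simp only [OrderHom.coe_mk] at this
    rw [this]
    exact hi
  · exact iterate_mono S h hi

theorem monitored_closed (S : Set V) : Closed G k (monitored G k S) := by
  intro v hv hk w hw
  obtain ⟨i, hi⟩ := exists_stage (G := G) (k := k) S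
  refine Set.mem_iUnion.2 ⟨i + 1, ?_⟩
  rw [Function.iterate_succ_apply', ← hi]
  exact Or.inr ⟨v, hv, hk, hw⟩

/-- `v` is an interior vertex of `M`: its closed neighbourhood lies in `M`. -/
def Interior (G : SimpleGraph V) (M : Set V) (v : V) : Prop :=
  v ∈ M ∧ ∀ w, G.Adj v w → w ∈ M

theorem Interior.mono {M M' : Set V} (h : M ⊆ M') {v : V} (hv : Interior G M v) :
    Interior G M' v := ⟨h hv.1, fun w hw => h (hv.2 w hw)⟩

/-- Closed, and each vertex lies in the closed neighbourhood of an interior vertex. -/
structure Nice (G : SimpleGraph V) (k : ℕ) (M : Set V) : Prop where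
  closed : Closed G k M
  parent : ∀ v ∈ M, ∃ p, Interior G M p ∧ (v = p ∨ G.Adj p v)

theorem monitored_nice (S : Set V) : Nice G k (monitored G k S) := by
  refine ⟨monitored_closed S, ?_⟩
  have key : ∀ i : ℕ, ∀ v ∈ (propagate G k)^[i] (closedNbhd G S),
      ∃ p, Interior G (monitored G k S) p ∧ (v = p ∨ G.Adj p v) := by
    intro i
    induction i with
    | zero =>
      intro v hv
      have hint : ∀ s ∈ S, Interior G (monitored G k S) s := fun s hs =>
        ⟨closedNbhd_subset_monitored S (Or.inl hs),
          fun w hw => closedNbhd_subset_monitored S (Or.inr ⟨s, hs, hw⟩)⟩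
      rcases hv with h | ⟨s, hs, h⟩
      · exact ⟨v, hint v h, Or.inl rfl⟩
      · exact ⟨s, hint s hs, Or.inr h⟩
    | succ i ih =>
      intro v hv
      rw [Function.iterate_succ_apply'] at hv
      rcases hv with h | ⟨u, hu, hk, h⟩
      · exact ih v h
      · refine ⟨u, ⟨Set.mem_iUnion.2 ⟨i, hu⟩, fun w hw => Set.mem_iUnion.2 ⟨i + 1, ?_⟩⟩,
          Or.inr h⟩
        rw [Function.iterate_succ_apply']
        exact Or.inr ⟨u, hu, hk, hw⟩
  intro v hv
  obtain ⟨i, hi⟩ := Set.mem_iUnion.1 hv
  exact key i v hi

theorem claw (hG : ClawFree G) {v a b c : V} (ha : G.Adj v a) (hb : G.Adj v b)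
    (hc : G.Adj v c) (hab : a ≠ b) (hac : a ≠ c) (hbc : b ≠ c) :
    G.Adj a b ∨ G.Adj a c ∨ G.Adj b c := by
  by_contra hcon
  push Not at hcon
  obtain ⟨h1, h2, h3⟩ := hcon
  have h1' : ¬ G.Adj b a := fun h => h1 h.symm
  have h2' : ¬ G.Adj c a := fun h => h2 h.symm
  have h3' : ¬ G.Adj c b := fun h => h3 h.symm
  refine hG.false ⟨⟨Sum.elim (fun _ => v) ![a, b, c], ?_⟩, ?_⟩
  · rintro (i | i) (j | j) hij
    · rw [Subsingleton.elim i j]
    · exfalso
      fin_cases j
      · exact ha.ne hij
      · exact hb.ne hij
      · exact hc.ne hij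
    · exfalso
      fin_cases i
      · exact ha.ne hij.symm
      · exact hb.ne hij.symm
      · exact hc.ne hij.symm
    · fin_cases i <;> fin_cases j <;> simp_all
  · intro x y
    change G.Adj (Sum.elim (fun _ => v) ![a, b, c] x) (Sum.elim (fun _ => v) ![a, b, c] y) ↔ _
    rcases x with i | i <;> rcases y with j | j
    · simp
    · fin_cases j <;> simp [ha, hb, hc]
    · fin_cases i <;> simp [ha.symm, hb.symm, hc.symm]
    · fin_cases i <;> fin_cases j <;> simp [h1, h2, h3, h1', h2', h3']

end Basic

/-! ## The upper bound -/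

section Upper

variable {V : Type} [Fintype V] {G : SimpleGraph V} {k r : ℕ}

/-- `u` and `v` lie in a common clique with at least `k + 2` vertices. -/
def Link (G : SimpleGraph V) (k : ℕ) (u v : V) : Prop :=
  ∃ K : Finset V, k + 2 ≤ K.card ∧ G.IsClique (K : Set V) ∧ u ∈ K ∧ v ∈ K

theorem Link.symm {u v : V} (h : Link G k u v) : Link G k v u := by
  obtain ⟨K, h1, h2, h3, h4⟩ := h
  exact ⟨K, h1, h2, h4, h3⟩

/-- `v` lies in a clique with at least `k + 2` vertices. -/
def Big (G : SimpleGraph V) (k : ℕ) (v : V) : Prop := Link G k v v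

theorem Link.big_left {u v : V} (h : Link G k u v) : Big G k u := by
  obtain ⟨K, h1, h2, h3, h4⟩ := h
  exact ⟨K, h1, h2, h3, h3⟩

theorem Link.big_right {u v : V} (h : Link G k u v) : Big G k v := h.symm.big_left

/-- The class of a vertex. -/
def Same (G : SimpleGraph V) (k : ℕ) : V → V → Prop := Relation.ReflTransGen (Link G k)

theorem Same.refl (v : V) : Same G k v v := Relation.ReflTransGen.refl

theorem Same.symm {u v : V} (h : Same G k u v) : Same G k v u := by
  induction h with
  | refl => exact Relation.ReflTransGen.refl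
  | tail _ h2 ih => exact Relation.ReflTransGen.head h2.symm ih

theorem Same.trans {u v w : V} (h : Same G k u v) (h' : Same G k v w) : Same G k u w :=
  Relation.ReflTransGen.trans h h'

theorem Link.same {u v : V} (h : Link G k u v) : Same G k u v := Relation.ReflTransGen.single h

theorem Same.big {u v : V} (h : Same G k u v) (hu : Big G k u) : Big G k v := by
  induction h with
  | refl => exact hu
  | tail _ h2 _ => exact h2.big_right

/-- A monitored vertex with `k + 1` monitored neighbours is interior. -/
theorem interior_of_card (hreg : ∀ v, (G.neighborSet v).ncard = r) (hr : r ≤ 2 * k + 1)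
    {M : Set V} (hM : Nice G k M) {v : V} (hv : v ∈ M) (T : Finset V)
    (hT : ∀ w ∈ T, G.Adj v w ∧ w ∈ M) (hcard : k + 1 ≤ T.card) : Interior G M v := by
  refine ⟨hv, hM.closed v hv ?_⟩
  have h1 : (G.neighborSet v \ M).ncard + T.card ≤ r := by
    rw [← hreg v, ← Set.ncard_coe_finset T, ← Set.ncard_union_eq]
    · apply Set.ncard_le_ncard _ (Set.toFinite _)
      rintro w (hw | hw)
      · exact hw.1
      · exact (hT w hw).1
    · rw [Set.disjoint_left]
      intro w hw hw'
      exact hw.2 (hT w hw').2
  omega

theorem Interior.link (hreg : ∀ v, (G.neighborSet v).ncard = r) (hr : r ≤ 2 * k + 1)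
    {M : Set V} (hM : Nice G k M) {v u : V} (hv : Interior G M v) (h : Link G k v u) :
    Interior G M u := by
  obtain ⟨K, h1, h2, h3, h4⟩ := h
  have hKM : ∀ w ∈ K, w ∈ M := by
    intro w hw
    by_cases hvw : v = w
    · rw [← hvw]; exact hv.1
    · exact hv.2 w (h2 h3 hw hvw)
  refine interior_of_card hreg hr hM (hKM u h4) (K.erase u) ?_ ?_
  · intro w hw
    rw [Finset.mem_erase] at hw
    exact ⟨h2 h4 hw.2 hw.1.symm, hKM w hw.2⟩
  · rw [Finset.card_erase_of_mem h4]
    omega

theorem Interior.same (hreg : ∀ v, (G.neighborSet v).ncard = r) (hr : r ≤ 2 * k + 1)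
    {M : Set V} (hM : Nice G k M) {v u : V} (hv : Interior G M v) (h : Same G k v u) :
    Interior G M u := by
  induction h with
  | refl => exact hv
  | tail _ h2 ih => exact ih.link hreg hr hM h2

/-- The outer neighbours of a boundary vertex form a clique with at least `k + 1` vertices. -/
theorem boundary (hG : ClawFree G) {M : Set V} (hM : Nice G k M) {v : V} (hv : v ∈ M)
    (hb : ¬ Interior G M v) :
    k + 1 ≤ (G.neighborSet v \ M).ncard ∧
      ∃ p, Interior G M p ∧ G.Adj p v ∧ ∀ x ∈ G.neighborSet v \ M, ∀ y ∈ G.neighborSet v \ M,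
        x ≠ y → G.Adj x y := by
  obtain ⟨p, hp, hpv⟩ := hM.parent v hv
  have hpv' : G.Adj p v := by
    rcases hpv with h | h
    · exact absurd (h ▸ hp) hb
    · exact h
  constructor
  · by_contra hlt
    push Not at hlt
    exact hb ⟨hv, hM.closed v hv (by omega)⟩
  · refine ⟨p, hp, hpv', ?_⟩
    intro x hx y hy hxy
    have hpx : p ≠ x := fun h => hx.2 (h ▸ hp.1)
    have hpy : p ≠ y := fun h => hy.2 (h ▸ hp.1)
    rcases claw hG hpv'.symm hx.1 hy.1 hpx hpy hxy with h | h | h
    · exact absurd (hp.2 x h) hx.2
    · exact absurd (hp.2 y h) hy.2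
    · exact h

theorem boundary_link (hG : ClawFree G) {M : Set V} (hM : Nice G k M) {v : V} (hv : v ∈ M)
    {w : V} (hvw : G.Adj v w) (hw : w ∉ M) : Link G k v w := by
  have hb : ¬ Interior G M v := fun h => hw (h.2 w hvw)
  obtain ⟨h1, p, hp, hpv, h2⟩ := boundary hG hM hv hb
  have hvn : v ∉ (G.neighborSet v \ M).toFinset := by
    simp
  refine ⟨insert v (G.neighborSet v \ M).toFinset, ?_, ?_, ?_, ?_⟩
  · rw [Finset.card_insert_of_notMem hvn, ← Set.ncard_eq_toFinset_card']
    omega
  · intro x hx y hy hxy
    simp only [Finset.coe_insert, Set.coe_toFinset, Set.mem_insert_iff] at hx hy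
    rcases hx with rfl | hx
    · rcases hy with rfl | hy
      · exact absurd rfl hxy
      · exact hy.1
    · rcases hy with rfl | hy
      · exact (show G.Adj _ _ from hx.1).symm
      · exact h2 x hx y hy hxy
  · simp
  · simp [hvw, hw]

theorem small_interior (hG : ClawFree G) {M : Set V} (hM : Nice G k M) {v : V} (hv : v ∈ M)
    (hs : ¬ Big G k v) : Interior G M v := by
  refine ⟨hv, fun w hw => ?_⟩
  by_contra hwM
  exact hs (boundary_link hG hM hv hw hwM).big_left

/-- `b` is big and there is a path from `v` to `b` all of whose vertices but `b` are small. -/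
inductive Reach (G : SimpleGraph V) (k : ℕ) : V → V → Prop
  | base {b : V} : Big G k b → Reach G k b b
  | step {u v b : V} : ¬ Big G k u → G.Adj u v → Reach G k v b → Reach G k u b

theorem Reach.big {v b : V} (h : Reach G k v b) : Big G k b := by
  induction h with
  | base h => exact h
  | step _ _ _ ih => exact ih

theorem Reach.eq_of_big {v b : V} (h : Reach G k v b) (hv : Big G k v) : v = b := by
  cases h with
  | base _ => rfl
  | step h _ _ => exact absurd hv h

theorem Reach.interior (hG : ClawFree G) {M : Set V} (hM : Nice G k M) {v b : V}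
    (h : Reach G k v b) (hb : Interior G M b) : Interior G M v := by
  induction h with
  | base _ => exact hb
  | step h1 h2 _ ih => exact small_interior hG hM ((ih hb).2 _ h2.symm) h1

/-- The key lemma: a class from every vertex of which one can leave towards another class is
completely monitored by the earlier classes or by the later ones. -/
theorem crux (hG : ClawFree G) (hreg : ∀ v, (G.neighborSet v).ncard = r) (hr : r ≤ 2 * k + 1)
    {M₁ M₂ : Set V} (hM₁ : Nice G k M₁) (hM₂ : Nice G k M₂) {x : V} (hx : Big G k x)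
    (hoth : ∀ b, Big G k b → ¬ Same G k x b → Interior G M₁ b ∨ Interior G M₂ b)
    (htr : ∀ y, Same G k x y → ∃ z b, G.Adj y z ∧ Reach G k z b ∧ ¬ Same G k x b) :
    Interior G M₁ x ∨ Interior G M₂ x := by
  by_contra hcon
  push Not at hcon
  obtain ⟨hn1, hn2⟩ := hcon
  have hn1' : ∀ y, Same G k x y → ¬ Interior G M₁ y := fun y hy h =>
    hn1 (h.same hreg hr hM₁ hy.symm)
  have hn2' : ∀ y, Same G k x y → ¬ Interior G M₂ y := fun y hy h =>
    hn2 (h.same hreg hr hM₂ hy.symm)
  have hcov : ∀ y, Same G k x y → y ∈ M₁ ∨ y ∈ M₂ := by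
    intro y hy
    obtain ⟨z, b, hyz, hzb, hb⟩ := htr y hy
    rcases hoth b hzb.big hb with h | h
    · exact Or.inl ((hzb.interior hG hM₁ h).2 y hyz.symm)
    · exact Or.inr ((hzb.interior hG hM₂ h).2 y hyz.symm)
  by_cases hv : ∃ v, Same G k x v ∧ v ∈ M₁
  · obtain ⟨v, hxv, hvM⟩ := hv
    obtain ⟨hk, p, hp, hpv, hcl⟩ := boundary hG hM₁ hvM (hn1' v hxv)
    have hKM : ∀ y ∈ G.neighborSet v \ M₁, Same G k x y ∧ y ∈ M₂ := by
      intro y hy
      have hs : Same G k x y := hxv.trans (boundary_link hG hM₁ hvM hy.1 hy.2).same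
      refine ⟨hs, ?_⟩
      rcases hcov y hs with h | h
      · exact absurd h hy.2
      · exact h
    have hne : (G.neighborSet v \ M₁).Nonempty := by
      rw [← Set.ncard_pos (Set.toFinite _)]
      omega
    obtain ⟨y, hy⟩ := hne
    obtain ⟨hxy, hyM⟩ := hKM y hy
    obtain ⟨_, q, hq, hqy, _⟩ := boundary hG hM₂ hyM (hn2' y hxy)
    have hqK : q ∉ G.neighborSet v \ M₁ := fun h => hn2' q (hKM q h).1 hq
    refine hn2' y hxy (interior_of_card hreg hr hM₂ hyM
      (insert q ((G.neighborSet v \ M₁).toFinset.erase y)) ?_ ?_)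
    · intro w hw
      rw [Finset.mem_insert, Finset.mem_erase, Set.mem_toFinset] at hw
      rcases hw with rfl | ⟨h1, h2⟩
      · exact ⟨hqy.symm, hq.1⟩
      · exact ⟨hcl y hy w h2 (Ne.symm h1), (hKM w h2).2⟩
    · rw [Finset.card_insert_of_notMem, Finset.card_erase_of_mem (by simpa using hy),
        ← Set.ncard_eq_toFinset_card']
      · omega
      · rw [Finset.mem_erase, Set.mem_toFinset]
        exact fun h => hqK h.2
  · push Not at hv
    obtain ⟨K, h1, h2, h3, _⟩ := hx
    have hK : ∀ w ∈ K, w ∈ M₂ := by
      intro w hw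
      have hs : Same G k x w := Link.same ⟨K, h1, h2, h3, hw⟩
      rcases hcov w hs with h | h
      · exact absurd h (hv w hs)
      · exact h
    refine hn2 (interior_of_card hreg hr hM₂ (hK x h3) (K.erase x) ?_ ?_)
    · intro w hw
      rw [Finset.mem_erase] at hw
      exact ⟨h2 h3 hw.2 hw.1.symm, hK w hw.2⟩
    · rw [Finset.card_erase_of_mem h3]
      omega

/-- The setoid of classes. -/
def classSetoid (G : SimpleGraph V) (k : ℕ) : Setoid V :=
  ⟨Same G k, ⟨Same.refl, fun h => h.symm, fun h h' => h.trans h'⟩⟩

/-- The representative of the class of `v`. -/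
def rep (G : SimpleGraph V) (k : ℕ) (v : V) : V :=
  (Quotient.mk (classSetoid G k) v).out

theorem same_rep (v : V) : Same G k v (rep G k v) :=
  Same.symm (Quotient.exact (s := classSetoid G k) (Quotient.out_eq _))

theorem rep_eq {u v : V} (h : Same G k u v) : rep G k u = rep G k v := by
  unfold rep
  rw [Quotient.sound (s := classSetoid G k) h]

/-- The representatives of the classes of big vertices. -/
def reps (G : SimpleGraph V) (k : ℕ) : Finset V :=
  Finset.univ.filter (fun x => Big G k x ∧ rep G k x = x)

theorem rep_mem {v : V} (h : Big G k v) : rep G k v ∈ reps G k := by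
  unfold reps
  rw [Finset.mem_filter]
  exact ⟨Finset.mem_univ _, (same_rep v).big h, (rep_eq (same_rep v)).symm⟩

theorem eq_of_same {x x' : V} (hx : x ∈ reps G k) (hx' : x' ∈ reps G k)
    (h : Same G k x x') : x = x' := by
  unfold reps at hx hx'
  rw [Finset.mem_filter] at hx hx'
  rw [← hx.2.2, ← hx'.2.2, rep_eq h]

/-- The set chosen for the order given by `f`: a representative is chosen when its class is not
monitored by the earlier representatives. -/
def chosen (G : SimpleGraph V) (k : ℕ) (f : V → ℕ) : Finset V :=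
  (reps G k).filter (fun x =>
    ¬ Interior G (monitored G k {y : V | y ∈ reps G k ∧ f y < f x}) x)

theorem univ_of_interior (hc : G.Connected) {M : Set V} {x : V} (hx : x ∈ M)
    (h : ∀ v ∈ M, Interior G M v) : M = Set.univ := by
  rw [Set.eq_univ_iff_forall]
  intro v
  obtain ⟨p⟩ := hc.preconnected x v
  induction p with
  | nil => exact hx
  | cons hadj _ ih => exact ih ((h _ hx).2 _ hadj)

theorem chosen_dominates (hc : G.Connected) (hG : ClawFree G)
    (hreg : ∀ v, (G.neighborSet v).ncard = r) (hr : r ≤ 2 * k + 1) (f : V → ℕ)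
    (hne : ∃ x, Big G k x) : monitored G k (chosen G k f : Set V) = Set.univ := by
  set M := monitored G k (chosen G k f : Set V) with hMdef
  have hM : Nice G k M := monitored_nice _
  have key : ∀ n : ℕ, ∀ x ∈ reps G k, f x = n → Interior G M x := by
    intro n
    induction n using Nat.strong_induction_on with
    | _ n ih =>
      intro x hx hfx
      by_cases hch : x ∈ chosen G k f
      · exact ⟨closedNbhd_subset_monitored _ (Or.inl hch),
          fun w hw => closedNbhd_subset_monitored _ (Or.inr ⟨x, hch, hw⟩)⟩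
      · have hint : Interior G (monitored G k {y : V | y ∈ reps G k ∧ f y < f x}) x := by
          by_contra hnot
          exact hch (Finset.mem_filter.2 ⟨hx, hnot⟩)
        refine hint.mono (monitored_subset ?_ hM.closed)
        rintro v (hv | ⟨s, hs, hv⟩)
        · exact (ih (f v) (hfx ▸ hv.2) v hv.1 rfl).1
        · exact (ih (f s) (hfx ▸ hs.2) s hs.1 rfl).2 v hv
  have hbig : ∀ v, Big G k v → Interior G M v := fun v hv =>
    (key _ _ (rep_mem hv) rfl).same hreg hr hM (same_rep v).symm
  obtain ⟨x, hx⟩ := hne
  refine univ_of_interior hc (hbig x hx).1 (fun v hv => ?_)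
  by_cases h : Big G k v
  · exact hbig v h
  · exact small_interior hG hM hv h

/-- The set charged to the class of `x`. -/
def share (G : SimpleGraph V) (k : ℕ) (x : V) : Finset V :=
  Finset.univ.filter (fun v => (∃ b, Reach G k v b) ∧ ∀ b, Reach G k v b → Same G k x b)

theorem share_disjoint {x x' : V} (hx : x ∈ reps G k) (hx' : x' ∈ reps G k) (hne : x ≠ x') :
    Disjoint (share G k x) (share G k x') := by
  rw [Finset.disjoint_left]
  intro v hv hv'
  unfold share at hv hv'
  rw [Finset.mem_filter] at hv hv'
  obtain ⟨b, hb⟩ := hv.2.1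
  exact hne (eq_of_same hx hx' ((hv.2.2 b hb).trans (hv'.2.2 b hb).symm))

theorem mem_share_of_same {x y : V} (hx : Big G k x) (h : Same G k x y) :
    y ∈ share G k x := by
  unfold share
  rw [Finset.mem_filter]
  refine ⟨Finset.mem_univ _, ⟨y, Reach.base (h.big hx)⟩, fun b hb => ?_⟩
  rw [← hb.eq_of_big (h.big hx)]
  exact h

theorem share_card_ge {x : V} (hx : Big G k x) : k + 2 ≤ (share G k x).card := by
  have hx' := hx
  obtain ⟨K, h1, h2, h3, _⟩ := hx
  refine le_trans h1 (Finset.card_le_card (fun w hw => ?_))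
  exact mem_share_of_same hx' (Link.same ⟨K, h1, h2, h3, hw⟩)

theorem share_card_of_untroubled (hreg : ∀ v, (G.neighborSet v).ncard = r) {x : V}
    (hx : Big G k x) (h : ¬ ∀ y, Same G k x y → ∃ z b, G.Adj y z ∧ Reach G k z b ∧
      ¬ Same G k x b) : r + 1 ≤ (share G k x).card := by
  push Not at h
  obtain ⟨y, hxy, hy⟩ := h
  have hsub : insert y (G.neighborSet y).toFinset ⊆ share G k x := by
    intro z hz
    rw [Finset.mem_insert, Set.mem_toFinset] at hz
    rcases hz with rfl | hz
    · exact mem_share_of_same hx hxy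
    · unfold share
      rw [Finset.mem_filter]
      refine ⟨Finset.mem_univ _, ?_, fun b hb => hy z b hz hb⟩
      by_cases hbig : Big G k z
      · exact ⟨z, Reach.base hbig⟩
      · exact ⟨y, Reach.step hbig (show G.Adj y z from hz).symm (Reach.base (hxy.big hx))⟩
  have hcard := Finset.card_le_card hsub
  rw [Finset.card_insert_of_notMem (by simp), ← Set.ncard_eq_toFinset_card', hreg] at hcard
  exact hcard

/-- Neighbourhoods in a regular graph give `r + 1 ≤ n`. -/
theorem card_ge (hreg : ∀ v, (G.neighborSet v).ncard = r) (v : V) :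
    r + 1 ≤ Fintype.card V := by
  have h1 : (insert v (G.neighborSet v).toFinset).card = r + 1 := by
    rw [Finset.card_insert_of_notMem (by simp), ← Set.ncard_eq_toFinset_card', hreg]
  rw [← h1]
  exact Finset.card_le_univ _

theorem exists_small_set (hc : G.Connected) (hG : ClawFree G)
    (hreg : ∀ v, (G.neighborSet v).ncard = r) (hr : r ≤ 2 * k + 1) :
    ∃ S : Finset V, monitored G k (S : Set V) = Set.univ ∧
      (r + 1) * S.card ≤ Fintype.card V := by
  by_cases hne : ∃ x, Big G k x
  · obtain ⟨e⟩ : Nonempty (V ≃ Fin (Fintype.card V)) := ⟨Fintype.equivFin V⟩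
    set N := Fintype.card V with hN
    set f : V → ℕ := fun v => (e v : ℕ) with hf
    set g : V → ℕ := fun v => N - (e v : ℕ) with hg
    have hfN : ∀ v, f v < N := fun v => (e v).2
    have hfinj : ∀ u v, f u = f v → u = v := fun u v h => e.injective (Fin.ext h)
    have hgf : ∀ u v, g u < g v ↔ f v < f u := by
      intro u v
      have h1 := hfN u
      have h2 := hfN v
      simp only [hg, hf] at h1 h2 ⊢
      omega
    have hcount : (r + 1) * ((chosen G k f).card + (chosen G k g).card) ≤ 2 * N := by
      have hterm : ∀ x ∈ reps G k, (r + 1) * ((if x ∈ chosen G k f then 1 else 0) +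
          (if x ∈ chosen G k g then 1 else 0)) ≤ 2 * (share G k x).card := by
        intro x hx
        have hbig : Big G k x := (Finset.mem_filter.1 hx).2.1
        have h2 := share_card_ge hbig
        by_cases hboth : x ∈ chosen G k f ∧ x ∈ chosen G k g
        · have h3 : r + 1 ≤ (share G k x).card := by
            apply share_card_of_untroubled hreg hbig
            intro htr
            have hn1 := (Finset.mem_filter.1 hboth.1).2
            have hn2 := (Finset.mem_filter.1 hboth.2).2
            have := crux hG hreg hr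
              (monitored_nice {y : V | y ∈ reps G k ∧ f y < f x})
              (monitored_nice {y : V | y ∈ reps G k ∧ g y < g x}) hbig ?_ htr
            · rcases this with h | h
              · exact hn1 h
              · exact hn2 h
            · intro b hb hnb
              have hrb := rep_mem hb
              have hne' : f (rep G k b) ≠ f x := by
                intro h
                have := hfinj _ _ h
                exact hnb (this ▸ (same_rep b).symm)
              have hint : ∀ (S : Set V), rep G k b ∈ S → Interior G (monitored G k S) b := by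
                intro S hS
                have h4 : Interior G (monitored G k S) (rep G k b) :=
                  ⟨closedNbhd_subset_monitored _ (Or.inl hS),
                    fun w hw => closedNbhd_subset_monitored _ (Or.inr ⟨_, hS, hw⟩)⟩
                exact h4.same hreg hr (monitored_nice S) (same_rep b).symm
              rcases lt_or_gt_of_ne hne' with h | h
              · exact Or.inl (hint _ ⟨hrb, h⟩)
              · exact Or.inr (hint _ ⟨hrb, (hgf _ _).2 h⟩)
          rw [if_pos hboth.1, if_pos hboth.2]
          omega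
        · have h3 : (if x ∈ chosen G k f then 1 else 0) +
              (if x ∈ chosen G k g then 1 else 0) ≤ 1 := by
            by_cases ha : x ∈ chosen G k f
            · rw [if_pos ha, if_neg (fun h => hboth ⟨ha, h⟩)]
            · rw [if_neg ha]
              split_ifs <;> omega
          calc (r + 1) * ((if x ∈ chosen G k f then 1 else 0) +
              (if x ∈ chosen G k g then 1 else 0)) ≤ (r + 1) * 1 := Nat.mul_le_mul_left _ h3
            _ ≤ 2 * (share G k x).card := by omega
      have hsum := Finset.sum_le_sum hterm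
      rw [← Finset.mul_sum, ← Finset.mul_sum, Finset.sum_add_distrib] at hsum
      have hc1 : ∀ h : V → ℕ, ∑ x ∈ reps G k, (if x ∈ chosen G k h then 1 else 0) =
          (chosen G k h).card := by
        intro h
        rw [← Finset.sum_filter, Finset.sum_const, smul_eq_mul, mul_one]
        congr 1
        ext x
        rw [Finset.mem_filter]
        exact ⟨fun h => h.2, fun h => ⟨(Finset.mem_filter.1 h).1, h⟩⟩
      rw [hc1, hc1] at hsum
      refine le_trans hsum (Nat.mul_le_mul_left 2 ?_)
      rw [← Finset.card_biUnion]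
      · exact Finset.card_le_univ _
      · intro x hx x' hx' hne'
        exact share_disjoint hx hx' hne'
    rcases le_total (chosen G k f).card (chosen G k g).card with h | h
    · refine ⟨chosen G k f, chosen_dominates hc hG hreg hr f hne, ?_⟩
      nlinarith
    · refine ⟨chosen G k g, chosen_dominates hc hG hreg hr g hne, ?_⟩
      nlinarith
  · push Not at hne
    obtain ⟨v⟩ := hc.nonempty
    refine ⟨{v}, ?_, ?_⟩
    · have hM : Nice G k (monitored G k (({v} : Finset V) : Set V)) := monitored_nice _
      refine univ_of_interior hc (x := v) (closedNbhd_subset_monitored _ (Or.inl (by simp))) ?_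
      intro w hw
      exact small_interior hG hM hw (hne w)
    · rw [Finset.card_singleton, mul_one]
      exact card_ge hreg v

theorem number_le (S : Finset V) (h : monitored G k (S : Set V) = Set.univ) :
    powerDominationNumber G k ≤ S.card :=
  Nat.sInf_le ⟨(S : Set V), Set.ncard_coe_finset S, h⟩

/-- The upper bound. -/
theorem upper (hc : G.Connected) (hG : ClawFree G)
    (hreg : ∀ v, (G.neighborSet v).ncard = r) (hr : r ≤ 2 * k + 1) :
    (powerDominationNumber G k : ℝ) ≤ (Fintype.card V : ℝ) / ((r : ℝ) + 1) := by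
  obtain ⟨S, h1, h2⟩ := exists_small_set hc hG hreg hr
  have h3 : (r + 1) * powerDominationNumber G k ≤ Fintype.card V :=
    le_trans (Nat.mul_le_mul_left _ (number_le S h1)) h2
  have hpos : (0 : ℝ) < (r : ℝ) + 1 := by positivity
  rw [le_div_iff₀ hpos]
  have h4 : (((r + 1) * powerDominationNumber G k : ℕ) : ℝ) ≤ (Fintype.card V : ℝ) :=
    Nat.cast_le.2 h3
  push_cast at h4
  linarith

end Upper

/-! ## The lower bound -/

section Lower

/-- The vertices of the extremal graph: two sides, each with two levels of `h` vertices, and a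
middle clique with `t` vertices. -/
abbrev W (h t : ℕ) : Type := (Bool × Bool × ZMod h) ⊕ Fin t

/-- The adjacency: each side is a clique, the middle is a clique joined to the lower levels
(`false`) of both sides, and the upper levels (`true`) of the two sides are joined by a
`t`-regular bipartite graph. -/
def wAdj (h t : ℕ) : W h t → W h t → Prop
  | Sum.inl (s, l, i), Sum.inl (s', l', j) =>
      (s = s' ∧ (l, i) ≠ (l', j)) ∨
      (s = false ∧ s' = true ∧ l = true ∧ l' = true ∧ (j = i ∨ (t = 2 ∧ j = i + 1))) ∨
      (s = true ∧ s' = false ∧ l = true ∧ l' = true ∧ (i = j ∨ (t = 2 ∧ i = j + 1)))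
  | Sum.inl (_, l, _), Sum.inr _ => l = false
  | Sum.inr _, Sum.inl (_, l, _) => l = false
  | Sum.inr z, Sum.inr z' => z ≠ z'

/-- The extremal graph. -/
def wGraph (h t : ℕ) : SimpleGraph (W h t) where
  Adj := wAdj h t
  symm := ⟨by
    rintro (⟨s, l, i⟩ | z) (⟨s', l', j⟩ | z') hadj
    · simp only [wAdj] at hadj ⊢
      rcases hadj with ⟨h1, h2⟩ | ⟨h1, h2, h3, h4, h5⟩ | ⟨h1, h2, h3, h4, h5⟩
      · exact Or.inl ⟨h1.symm, h2.symm⟩
      · exact Or.inr (Or.inr ⟨h2, h1, h4, h3, h5⟩)
      · exact Or.inr (Or.inl ⟨h2, h1, h4, h3, h5⟩)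
    · exact hadj
    · exact hadj
    · exact Ne.symm hadj⟩
  loopless := ⟨by
    rintro (⟨s, l, i⟩ | z) hadj
    · simp only [wAdj] at hadj
      rcases hadj with ⟨h1, h2⟩ | ⟨h1, h2, h3, h4, h5⟩ | ⟨h1, h2, h3, h4, h5⟩
      · exact h2 rfl
      · rw [h1] at h2; exact absurd h2 (by decide)
      · rw [h1] at h2; exact absurd h2 (by decide)
    · exact hadj rfl⟩

theorem w_card (h t : ℕ) [NeZero h] : Fintype.card (W h t) = 4 * h + t := by
  simp [ZMod.card]
  ring

theorem w_clawFree (h t : ℕ) : ClawFree (wGraph h t) := by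
  refine ⟨fun φ => ?_⟩
  have hadj : ∀ i : Fin 3, (wGraph h t).Adj (φ (Sum.inl 0)) (φ (Sum.inr i)) := fun i =>
    φ.map_rel_iff.2 (by simp)
  have hnon : ∀ i j : Fin 3, ¬ (wGraph h t).Adj (φ (Sum.inr i)) (φ (Sum.inr j)) := fun i j hh =>
    absurd (φ.map_rel_iff.1 hh) (by simp)
  have hinj : ∀ i j : Fin 3, φ (Sum.inr i) = φ (Sum.inr j) → i = j := fun i j hh =>
    Sum.inr_injective (φ.injective hh)
  -- the neighbourhood of each vertex is covered by two cliques
  have hcov : ∀ v : W h t, ∃ c : W h t → Bool, ∀ x y, (wGraph h t).Adj v x →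
      (wGraph h t).Adj v y → c x = c y → x ≠ y → (wGraph h t).Adj x y := by
    rintro (⟨s, l, i⟩ | z)
    · refine ⟨fun x => match x with
        | Sum.inl (s', _, _) => decide (s' = s)
        | Sum.inr _ => false, ?_⟩
      rintro (⟨s₁, l₁, i₁⟩ | z₁) (⟨s₂, l₂, i₂⟩ | z₂) h1 h2 h3 h4
      · have hs : s₁ = s₂ := by
          cases s <;> cases s₁ <;> cases s₂ <;> simp_all
        subst hs
        exact Or.inl ⟨rfl, fun hh => h4 (by rw [Prod.mk.injEq] at hh; rw [hh.1, hh.2])⟩
      · have hs : s₁ ≠ s := by
          intro hh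
          simp [hh] at h3
        have h2' : l = false := h2
        rcases h1 with ⟨h5, _⟩ | ⟨_, _, h5, _⟩ | ⟨_, _, h5, _⟩
        · exact absurd h5.symm hs
        · rw [h2'] at h5; exact absurd h5 (by decide)
        · rw [h2'] at h5; exact absurd h5 (by decide)
      · have hs : s₂ ≠ s := by
          intro hh
          simp [hh] at h3
        have h1' : l = false := h1
        rcases h2 with ⟨h5, _⟩ | ⟨_, _, h5, _⟩ | ⟨_, _, h5, _⟩
        · exact absurd h5.symm hs
        · rw [h1'] at h5; exact absurd h5 (by decide)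
        · rw [h1'] at h5; exact absurd h5 (by decide)
      · exact fun hh => h4 (by rw [hh])
    · refine ⟨fun x => match x with
        | Sum.inl (s', _, _) => s'
        | Sum.inr _ => false, ?_⟩
      rintro (⟨s₁, l₁, i₁⟩ | z₁) (⟨s₂, l₂, i₂⟩ | z₂) h1 h2 h3 h4
      · have hs : s₁ = s₂ := h3
        subst hs
        exact Or.inl ⟨rfl, fun hh => h4 (by rw [Prod.mk.injEq] at hh; rw [hh.1, hh.2])⟩
      · exact h1
      · exact h2
      · exact fun hh => h4 (by rw [hh])
  obtain ⟨c, hc⟩ := hcov (φ (Sum.inl 0))
  obtain ⟨i, j, hij, hcij⟩ : ∃ i j : Fin 3, i ≠ j ∧ c (φ (Sum.inr i)) = c (φ (Sum.inr j)) := by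
    have := Fintype.exists_ne_map_eq_of_card_lt (fun i : Fin 3 => c (φ (Sum.inr i))) (by simp)
    exact this
  exact hnon i j (hc _ _ (hadj i) (hadj j) hcij (fun hh => hij (hinj i j hh)))

theorem w_connected (h t : ℕ) (ht : 0 < t) (hh : 0 < h) : (wGraph h t).Connected := by
  have hz : ∀ v : W h t, (wGraph h t).Reachable v (Sum.inr ⟨0, ht⟩) := by
    have h0 : ∀ (s : Bool) (i : ZMod h), (wGraph h t).Reachable (Sum.inl (s, false, i))
        (Sum.inr ⟨0, ht⟩) := fun s i => SimpleGraph.Adj.reachable rfl
    rintro (⟨s, l, i⟩ | z)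
    · cases l
      · exact h0 s i
      · refine SimpleGraph.Reachable.trans (v := Sum.inl (s, false, i)) ?_ (h0 s i)
        refine SimpleGraph.Adj.reachable (Or.inl ⟨rfl, ?_⟩)
        simp
    · refine SimpleGraph.Reachable.trans (v := Sum.inl (false, false, 0)) ?_ (h0 _ _)
      exact SimpleGraph.Adj.reachable rfl
  have : Nonempty (W h t) := ⟨Sum.inr ⟨0, ht⟩⟩
  exact ⟨fun u v => (hz u).trans (hz v).symm⟩

theorem ncard_neighborSet {V : Type} [Fintype V] (G : SimpleGraph V) (v : V) :
    (G.neighborSet v).ncard = ∑ w, if G.Adj v w then 1 else 0 := by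
  rw [Set.ncard_eq_toFinset_card', ← Finset.card_filter]
  congr 1
  ext w
  simp

theorem sum_ne (h : ℕ) [NeZero h] (i : ZMod h) :
    ∑ j : ZMod h, (if i ≠ j then 1 else 0) = h - 1 := by
  have h1 : ∑ j : ZMod h, (if i ≠ j then 1 else 0) + ∑ j : ZMod h, (if i = j then 1 else 0) =
      h := by
    rw [← Finset.sum_add_distrib]
    have : ∀ j : ZMod h, (if i ≠ j then 1 else 0) + (if i = j then 1 else 0) = 1 := by
      intro j
      by_cases hij : i = j
      · simp [hij]
      · simp [hij]
    rw [Finset.sum_congr rfl (fun j _ => this j)]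
    simp [ZMod.card]
  rw [Finset.sum_ite_eq] at h1
  simp only [Finset.mem_univ, if_true] at h1
  omega

theorem one_ne_zero' (h : ℕ) (hh : 2 ≤ h) : (1 : ZMod h) ≠ 0 := by
  have : Fact (1 < h) := ⟨hh⟩
  exact one_ne_zero

theorem sum_t (h t : ℕ) [NeZero h] (hh : 2 ≤ h) (ht : t = 1 ∨ t = 2) (i : ZMod h) :
    ∑ j : ZMod h, (if (j = i ∨ (t = 2 ∧ j = i + 1)) then 1 else 0) = t := by
  have h1 := one_ne_zero' h hh
  rcases ht with rfl | rfl
  · simp
  · rw [← Finset.card_filter]
    have : Finset.univ.filter (fun j : ZMod h => j = i ∨ ((2 = 2) ∧ j = i + 1)) = {i, i + 1} := by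
      ext j
      simp
    rw [this, Finset.card_pair]
    intro hi
    exact h1 (by simpa using hi.symm)

theorem sum_t' (h t : ℕ) [NeZero h] (hh : 2 ≤ h) (ht : t = 1 ∨ t = 2) (i : ZMod h) :
    ∑ j : ZMod h, (if (i = j ∨ (t = 2 ∧ i = j + 1)) then 1 else 0) = t := by
  have h1 := one_ne_zero' h hh
  rcases ht with rfl | rfl
  · simp
  · rw [← Finset.card_filter]
    have : Finset.univ.filter (fun j : ZMod h => i = j ∨ ((2 = 2) ∧ i = j + 1)) = {i, i - 1} := by
      ext j
      simp only [Finset.mem_filter, Finset.mem_univ, true_and, Finset.mem_insert,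
        Finset.mem_singleton]
      constructor
      · rintro (rfl | rfl)
        · exact Or.inl rfl
        · exact Or.inr (by ring)
      · rintro (rfl | rfl)
        · exact Or.inl rfl
        · exact Or.inr (by ring)
    rw [this, Finset.card_pair]
    intro hi
    exact h1 (by simpa using hi.symm)

theorem w_regular (h t : ℕ) (hh : 2 ≤ h) (ht : t = 1 ∨ t = 2) (v : W h t) :
    ((wGraph h t).neighborSet v).ncard = 2 * h - 1 + t := by
  have : NeZero h := ⟨by omega⟩
  rw [ncard_neighborSet, Fintype.sum_sum_type]
  rcases v with ⟨s, l, i⟩ | z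
  · rw [Fintype.sum_prod_type]
    simp only [Fintype.sum_prod_type]
    have e1 := sum_ne h i
    have e2 := sum_t h t hh ht i
    have e3 := sum_t' h t hh ht i
    have hcard : ∑ j : ZMod h, 1 = h := by simp [ZMod.card]
    have hcard' : ∑ j : Fin t, 1 = t := by simp
    cases s <;> cases l <;>
      simp [wGraph, wAdj, -Finset.sum_boole, -Finset.sum_const, hcard, hcard'] at e1 e2 e3 ⊢
    all_goals omega
  · rw [Fintype.sum_prod_type]
    simp only [Fintype.sum_prod_type]
    have hcard : ∑ j : ZMod h, 1 = h := by simp [ZMod.card]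
    have hz' : ∀ j : Fin t, (if (wGraph h t).Adj (Sum.inr z) (Sum.inr j) then 1 else 0) =
        if z = j then 0 else 1 := by
      intro j
      by_cases hzj : z = j
      · rw [if_neg (fun hh => hh hzj), if_pos hzj]
      · rw [if_pos (show (wGraph h t).Adj (Sum.inr z) (Sum.inr j) from hzj), if_neg hzj]
    have hz : ∑ j : Fin t, (if (wGraph h t).Adj (Sum.inr z) (Sum.inr j) then 1 else 0) =
        t - 1 := by
      rw [Finset.sum_congr rfl (fun j _ => hz' j)]
      rcases ht with rfl | rfl
      · fin_cases z; simp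
      · fin_cases z <;> simp [Fin.sum_univ_two]
    rw [hz]
    simp [wGraph, wAdj, -Finset.sum_boole, -Finset.sum_const, hcard]
    rcases ht with rfl | rfl <;> omega

/-- The graph is not monitored by a single vertex when `k < h`. -/
theorem w_not_monitored (h t k : ℕ) (hk : k < h) (v : W h t) (S : Set (W h t))
    (hS : S ⊆ {v}) : monitored (wGraph h t) k S ≠ Set.univ := by
  have : NeZero h := ⟨by omega⟩
  have key : ∃ M : Set (W h t), closedNbhd (wGraph h t) S ⊆ M ∧ Closed (wGraph h t) k M ∧
      ∃ w, w ∉ M := by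
    have hbig : ∀ (u : W h t) (M : Set (W h t)) (s l : Bool),
        (∀ j, (wGraph h t).Adj u (Sum.inl (s, l, j)) ∧ (Sum.inl (s, l, j) : W h t) ∉ M) →
        ¬ ((wGraph h t).neighborSet u \ M).ncard ≤ k := by
      intro u M s l hj hle
      have h1 : Set.range (fun j : ZMod h => (Sum.inl (s, l, j) : W h t)) ⊆
          (wGraph h t).neighborSet u \ M := by
        rintro _ ⟨j, rfl⟩
        exact ⟨(hj j).1, (hj j).2⟩
      have h2 := Set.ncard_le_ncard h1 (Set.toFinite _)
      have h3 : (Set.range (fun j : ZMod h => (Sum.inl (s, l, j) : W h t))).ncard = h := by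
        rw [← Set.image_univ, Set.ncard_image_of_injective, Set.ncard_univ, Nat.card_eq_fintype_card,
          ZMod.card]
        intro a b hab
        simpa using hab
      omega
    rcases v with ⟨s, l, i⟩ | z
    · refine ⟨{x | ∀ j, x ≠ Sum.inl (!s, false, j)}, ?_, ?_, ⟨Sum.inl (!s, false, 0), ?_⟩⟩
      · rintro x (hx | ⟨y, hy, hxy⟩) j rfl
        · have := hS hx
          simp at this
        · have := hS hy
          simp only [Set.mem_singleton_iff] at this
          subst this
          rcases hxy with ⟨h1, _⟩ | ⟨_, _, _, h1, _⟩ | ⟨_, _, _, h1, _⟩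
          · cases s <;> simp at h1
          · exact absurd h1 (by decide)
          · exact absurd h1 (by decide)
      · rintro (⟨s', l', i'⟩ | z') hx hle w hw
        · by_cases hs : s' = !s
          · subst hs
            have hl : l' = true := by
              cases l'
              · exact absurd rfl (hx i')
              · rfl
            subst hl
            refine absurd hle (hbig _ _ (!s) false (fun j => ⟨Or.inl ⟨rfl, by simp⟩, ?_⟩))
            intro hh
            exact hh j rfl
          · intro j hwj
            subst hwj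
            rcases hw with ⟨h1, _⟩ | ⟨_, _, _, h1, _⟩ | ⟨_, _, _, h1, _⟩
            · exact hs h1
            · exact absurd h1 (by decide)
            · exact absurd h1 (by decide)
        · refine absurd hle (hbig _ _ (!s) false (fun j => ⟨rfl, ?_⟩))
          intro hh
          exact hh j rfl
      · intro hh
        exact hh 0 rfl
    · refine ⟨{x | ∀ s j, x ≠ Sum.inl (s, true, j)}, ?_, ?_, ⟨Sum.inl (false, true, 0), ?_⟩⟩
      · rintro x (hx | ⟨y, hy, hxy⟩) s j rfl
        · have := hS hx
          simp at this
        · have := hS hy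
          simp only [Set.mem_singleton_iff] at this
          subst this
          exact absurd (show true = false from hxy) (by decide)
      · rintro (⟨s', l', i'⟩ | z') hx hle w hw
        · have hl : l' = false := by
            cases l'
            · rfl
            · exact absurd rfl (hx s' i')
          subst hl
          refine absurd hle (hbig _ _ s' true (fun j => ⟨Or.inl ⟨rfl, by simp⟩, ?_⟩))
          intro hh
          exact hh s' j rfl
        · intro s j hwj
          subst hwj
          exact absurd (show true = false from hw) (by decide)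
      · intro hh
        exact hh false 0 rfl
  obtain ⟨M, h1, h2, w, hw⟩ := key
  intro huniv
  have : w ∈ monitored (wGraph h t) k S := by rw [huniv]; trivial
  exact hw (monitored_subset h1 h2 this)

theorem monitored_univ {V : Type} [Fintype V] (G : SimpleGraph V) (k : ℕ) :
    monitored G k Set.univ = Set.univ := by
  rw [Set.eq_univ_iff_forall]
  exact fun v => closedNbhd_subset_monitored _ (Or.inl trivial)

theorem w_number (h t k : ℕ) (hk : k < h) (ht : 0 < t) :
    2 ≤ powerDominationNumber (wGraph h t) k := by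
  have : NeZero h := ⟨by omega⟩
  have hne : {m : ℕ | ∃ S : Set (W h t), S.ncard = m ∧
      monitored (wGraph h t) k S = Set.univ}.Nonempty :=
    ⟨_, Set.univ, rfl, monitored_univ _ _⟩
  obtain ⟨S, hS, hSu⟩ := Nat.sInf_mem hne
  by_contra hlt
  unfold powerDominationNumber at hlt
  rw [← hS] at hlt
  have h1 : S.ncard ≤ 1 := by omega
  have : Nonempty (W h t) := ⟨Sum.inr ⟨0, ht⟩⟩
  obtain ⟨v, hv⟩ := (Set.ncard_le_one_iff_subset_singleton (Set.toFinite S)).1 h1
  exact w_not_monitored h t k hk v S hv hSu

end Lower

/-- `k_min(r) = ⌊r / 2⌋`: for every `r ≥ 3` the smallest positive integer `k` such that every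
connected claw-free `r`-regular graph with `n` vertices has `k`-power domination number at most
`n / (r + 1)` is `⌊r / 2⌋`. -/
theorem result (r : ℕ) (hr : 3 ≤ r) :
    IsLeast {k : ℕ | 1 ≤ k ∧ ∀ (V : Type) [Fintype V] (G : SimpleGraph V),
      G.Connected → ClawFree G → (∀ v, (G.neighborSet v).ncard = r) →
      (powerDominationNumber G k : ℝ) ≤ (Fintype.card V : ℝ) / ((r : ℝ) + 1)} (r / 2) := by
  constructor
  · refine ⟨by omega, ?_⟩
    intro V _ G hc hG hreg
    exact upper hc hG hreg (by omega)
  · rintro k ⟨hk1, hk⟩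
    by_contra hlt
    push Not at hlt
    obtain ⟨h, hh⟩ : ∃ h, h = r / 2 := ⟨_, rfl⟩
    rw [← hh] at hlt
    obtain ⟨t, ht⟩ : ∃ t, t = r + 1 - 2 * h := ⟨_, rfl⟩
    have ht' : t = 1 ∨ t = 2 := by omega
    have hh2 : 2 ≤ h := by omega
    have : NeZero h := ⟨by omega⟩
    have h1 := hk (W h t) (wGraph h t) (w_connected h t (by omega) (by omega))
      (w_clawFree h t) (fun v => by rw [w_regular h t hh2 ht' v]; omega)
    have h2 := w_number h t k hlt (by omega)
    rw [w_card, le_div_iff₀ (by positivity)] at h1
    have h3 : powerDominationNumber (wGraph h t) k * (r + 1) ≤ 4 * h + t := by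
      exact_mod_cast h1
    have h4 : 2 * (r + 1) ≤ powerDominationNumber (wGraph h t) k * (r + 1) :=
      Nat.mul_le_mul_right _ h2
    omega

end

end Pool.Agent.Results.MP_19e396_co.KMin
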